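import Mathlib

/-!
Edge marginals of 2-forests and spanning trees: the inequality `P_2UF(e) ≤ P_UST(e)` fails for the
graph with 7 vertices and 11 edges made of `K_{2,5}` and the edge `e` joining the two vertices of
degree five.
-/

namespace Pool.Agent.Results.MP_83c1a8_pr.FirstInequalityFails

open Finset

variable {V : Type*}

open Classical in
/-- The spanning trees of `G`, as edge sets. -/
noncomputable def spanningTrees [Fintype V] (G : SimpleGraph V) : Finset (Finset (Sym2 V)) :=
  G.edgeFinset.powerset.filter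
    (fun F => (SimpleGraph.fromEdgeSet (F : Set (Sym2 V))).IsTree)

open Classical in
/-- The 2-forests of `G`, as edge sets: acyclic spanning subgraphs with exactly two connected
components. -/
noncomputable def twoForests [Fintype V] (G : SimpleGraph V) : Finset (Finset (Sym2 V)) :=
  G.edgeFinset.powerset.filter
    (fun F => (SimpleGraph.fromEdgeSet (F : Set (Sym2 V))).IsAcyclic ∧
      Nat.card (SimpleGraph.fromEdgeSet (F : Set (Sym2 V))).ConnectedComponent = 2)

open Classical in
/-- The connected spanning subgraphs of `G` with excess `2`, as edge sets. -/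
noncomputable def excessTwo [Fintype V] (G : SimpleGraph V) : Finset (Finset (Sym2 V)) :=
  G.edgeFinset.powerset.filter
    (fun F => (SimpleGraph.fromEdgeSet (F : Set (Sym2 V))).Connected ∧
      F.card = Fintype.card V + 2)

open Classical in
/-- The probability that the edge `e` belongs to a uniformly random member of the family `S`. -/
noncomputable def marginal (S : Finset (Finset (Sym2 V))) (e : Sym2 V) : ℝ :=
  ((S.filter (fun F => e ∈ F)).card : ℝ) / (S.card : ℝ)

/-! ### Counting forests with labels -/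

/-- merge the classes of `a` and `b` -/
def mrg (L : List ℕ) (a b : Fin 7) : List ℕ :=
  L.map (fun x => if x = L.getD a.1 0 then L.getD b.1 0 else x)

/-- Count of the ways to extend by edges of `es`, keeping the graph acyclic, with leaf test `P`. -/
def cnt (P : List ℕ → Bool) : List (Fin 7 × Fin 7) → List ℕ → ℕ
  | [], L => if P L then 1 else 0
  | e :: es, L => cnt P es L +
      (if L.getD e.1.1 0 = L.getD e.2.1 0 then 0 else cnt P es (mrg L e.1 e.2))

def PT (L : List ℕ) : Bool := L.dedup.length = 1
def PF (L : List ℕ) : Bool := L.dedup.length = 2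

def L0 : List ℕ := [0, 1, 2, 3, 4, 5, 6]
def rest : List (Fin 7 × Fin 7) :=
  [(0, 2), (1, 2), (0, 3), (1, 3), (0, 4), (1, 4), (0, 5), (1, 5), (0, 6), (1, 6)]

lemma c1 : cnt PT rest (mrg L0 0 1) = 32 := by decide +kernel
lemma c2 : cnt PT ((0, 1) :: rest) L0 = 112 := by decide +kernel
lemma c3 : cnt PF rest (mrg L0 0 1) = 80 := by decide +kernel
lemma c4 : cnt PF ((0, 1) :: rest) L0 = 272 := by decide +kernel

/-- labels represent the connected components -/
def Rep (H : SimpleGraph (Fin 7)) (L : List ℕ) : Prop :=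
  L.length = 7 ∧ ∀ u v : Fin 7, L.getD u.1 0 = L.getD v.1 0 ↔ H.Reachable u v

lemma reach_sup (H : SimpleGraph V) (a b u v : V) (hab : a ≠ b) :
    (H ⊔ SimpleGraph.edge a b).Reachable u v ↔
      H.Reachable u v ∨ (H.Reachable u a ∧ H.Reachable b v) ∨
        (H.Reachable u b ∧ H.Reachable a v) := by
  constructor
  · rintro ⟨p⟩
    induction p with
    | nil => exact Or.inl (SimpleGraph.Reachable.refl _)
    | @cons x y z h p ih =>
      rw [SimpleGraph.sup_adj] at h
      rcases h with h | h
      · have hxy : H.Reachable x y := h.reachable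
        rcases ih with ih | ⟨ih1, ih2⟩ | ⟨ih1, ih2⟩
        · exact Or.inl (hxy.trans ih)
        · exact Or.inr (Or.inl ⟨hxy.trans ih1, ih2⟩)
        · exact Or.inr (Or.inr ⟨hxy.trans ih1, ih2⟩)
      · rw [SimpleGraph.edge_adj] at h
        rcases h with ⟨⟨rfl, rfl⟩ | ⟨rfl, rfl⟩, -⟩
        · rcases ih with ih | ⟨ih1, ih2⟩ | ⟨ih1, ih2⟩
          · exact Or.inr (Or.inl ⟨SimpleGraph.Reachable.refl _, ih⟩)
          · exact Or.inr (Or.inl ⟨SimpleGraph.Reachable.refl _, ih2⟩)
          · exact Or.inl ih2
        · rcases ih with ih | ⟨ih1, ih2⟩ | ⟨ih1, ih2⟩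
          · exact Or.inr (Or.inr ⟨SimpleGraph.Reachable.refl _, ih⟩)
          · exact Or.inl ih2
          · exact Or.inr (Or.inr ⟨SimpleGraph.Reachable.refl _, ih2⟩)
  · have hle : H ≤ H ⊔ SimpleGraph.edge a b := le_sup_left
    have hadj : (H ⊔ SimpleGraph.edge a b).Reachable a b := by
      apply SimpleGraph.Adj.reachable
      rw [SimpleGraph.sup_adj, SimpleGraph.edge_adj]
      exact Or.inr ⟨Or.inl ⟨rfl, rfl⟩, hab⟩
    rintro (h | ⟨h1, h2⟩ | ⟨h1, h2⟩)
    · exact h.mono hle
    · exact (h1.mono hle).trans (hadj.trans (h2.mono hle))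
    · exact (h1.mono hle).trans (hadj.symm.trans (h2.mono hle))

lemma mrg_getD (L : List ℕ) (hL : L.length = 7) (a b u : Fin 7) :
    (mrg L a b).getD u.1 0 =
      if L.getD u.1 0 = L.getD a.1 0 then L.getD b.1 0 else L.getD u.1 0 := by
  have hu : u.1 < L.length := by rw [hL]; exact u.2
  unfold mrg
  rw [List.getD_eq_getElem (l := List.map _ L) 0 (by simpa using hu),
    List.getElem_map, List.getD_eq_getElem (l := L) (n := u.1) 0 hu]

lemma Rep.mrg {H : SimpleGraph (Fin 7)} {L : List ℕ} (h : Rep H L) (a b : Fin 7) (hab : a ≠ b) :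
    Rep (H ⊔ SimpleGraph.edge a b) (mrg L a b) := by
  obtain ⟨hL, hR⟩ := h
  refine ⟨by simp [FirstInequalityFails.mrg, hL], fun u v => ?_⟩
  rw [reach_sup H a b u v hab, mrg_getD L hL, mrg_getD L hL, ← hR u v, ← hR u a, ← hR b v,
    ← hR u b, ← hR a v]
  generalize L.getD u.1 0 = U
  generalize L.getD v.1 0 = W
  generalize L.getD a.1 0 = A
  generalize L.getD b.1 0 = B
  split_ifs with h1 h2 h2
  · subst h1; subst h2; simp
  · subst h1
    constructor
    · intro h; subst h; simp
    · rintro (h | ⟨-, h⟩ | ⟨h, h'⟩)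
      · exact absurd h.symm h2
      · exact h
      · exact absurd h'.symm h2
  · subst h2
    constructor
    · intro h; subst h; simp
    · rintro (h | ⟨h, h'⟩ | ⟨h, h'⟩)
      · exact absurd h h1
      · exact absurd h h1
      · exact h
  · constructor
    · intro h; exact Or.inl h
    · rintro (h | ⟨h, h'⟩ | ⟨h, h'⟩)
      · exact h
      · exact absurd h h1
      · exact absurd h'.symm h2

open Classical in
/-- specification of `cnt` -/
lemma cnt_spec (P : List ℕ → Bool) (Q : SimpleGraph (Fin 7) → Prop)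
    (hPQ : ∀ H L, Rep H L → (Q H ↔ P L = true)) :
    ∀ (es : List (Fin 7 × Fin 7)) (L : List ℕ) (F0 : Finset (Sym2 (Fin 7))),
      Rep (SimpleGraph.fromEdgeSet (F0 : Set (Sym2 (Fin 7)))) L →
      (SimpleGraph.fromEdgeSet (F0 : Set (Sym2 (Fin 7)))).IsAcyclic →
      (es.map (fun e => s(e.1, e.2))).Nodup →
      (∀ e ∈ es, e.1 ≠ e.2 ∧ s(e.1, e.2) ∉ F0) →
      ((((es.map (fun e => s(e.1, e.2))).toFinset).powerset.filter (fun S =>
        (SimpleGraph.fromEdgeSet (((F0 ∪ S : Finset (Sym2 (Fin 7)))) : Set (Sym2 (Fin 7)))).IsAcyclic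
        ∧ Q (SimpleGraph.fromEdgeSet
          (((F0 ∪ S : Finset (Sym2 (Fin 7)))) : Set (Sym2 (Fin 7))))))).card = cnt P es L := by
  intro es
  induction es with
  | nil =>
    intro L F0 hrep hac _ _
    simp only [List.map_nil, List.toFinset_nil, Finset.powerset_empty, cnt]
    rw [Finset.filter_singleton]
    simp only [Finset.union_empty]
    have := hPQ _ _ hrep
    by_cases hP : P L = true
    · rw [if_pos ⟨hac, this.2 hP⟩, if_pos hP]; rfl
    · rw [if_neg (fun h => hP (this.1 h.2)), if_neg hP]; rfl
  | cons e es ih =>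
    intro L F0 hrep hac hnd hes
    obtain ⟨a, b⟩ := e
    have hab : a ≠ b := (hes (a, b) (by simp)).1
    have habF : s(a, b) ∉ F0 := (hes (a, b) (by simp)).2
    rw [List.map_cons, List.nodup_cons] at hnd
    have hes' : ∀ e ∈ es, e.1 ≠ e.2 ∧ s(e.1, e.2) ∉ F0 := fun e he => hes e (by simp [he])
    have hnm : s(a, b) ∉ (es.map (fun e => s(e.1, e.2))).toFinset := by
      rw [List.mem_toFinset]; exact hnd.1
    have hE : ((((a, b) :: es).map (fun e => s(e.1, e.2))).toFinset) =
        insert s(a, b) ((es.map (fun e => s(e.1, e.2))).toFinset) := by simp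
    rw [hE, Finset.powerset_insert, Finset.filter_union, Finset.card_union_of_disjoint]
    · rw [ih L F0 hrep hac hnd.2 hes']
      simp only [cnt]
      congr 1
      have hgr : SimpleGraph.fromEdgeSet ((insert s(a, b) F0 : Finset (Sym2 (Fin 7))) :
          Set (Sym2 (Fin 7))) =
          SimpleGraph.fromEdgeSet (F0 : Set (Sym2 (Fin 7))) ⊔ SimpleGraph.edge a b := by
        rw [SimpleGraph.edge, Finset.coe_insert, Set.insert_eq, Set.union_comm,
          ← SimpleGraph.fromEdgeSet_union]
      have hnadj : ¬ (SimpleGraph.fromEdgeSet (F0 : Set (Sym2 (Fin 7)))).Adj a b := by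
        rw [SimpleGraph.fromEdgeSet_adj]
        rintro ⟨h, -⟩
        exact habF (by simpa using h)
      have hiff : (SimpleGraph.fromEdgeSet ((insert s(a, b) F0 : Finset (Sym2 (Fin 7))) :
          Set (Sym2 (Fin 7)))).IsAcyclic ↔
          ¬ (SimpleGraph.fromEdgeSet (F0 : Set (Sym2 (Fin 7)))).Reachable a b := by
        rw [hgr, SimpleGraph.isAcyclic_sup_fromEdgeSet_iff]
        constructor
        · rintro ⟨-, h⟩ hr
          rcases h hr with h | h
          · exact hab h
          · exact hnadj h
        · intro h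
          exact ⟨hac, fun hr => absurd hr h⟩
      have hfilt : (Finset.image (insert s(a, b))
            ((es.map (fun e => s(e.1, e.2))).toFinset).powerset).filter (fun S =>
          (SimpleGraph.fromEdgeSet (((F0 ∪ S : Finset (Sym2 (Fin 7)))) :
            Set (Sym2 (Fin 7)))).IsAcyclic
          ∧ Q (SimpleGraph.fromEdgeSet
            (((F0 ∪ S : Finset (Sym2 (Fin 7)))) : Set (Sym2 (Fin 7))))) =
          Finset.image (insert s(a, b))
            ((((es.map (fun e => s(e.1, e.2))).toFinset).powerset).filter (fun S =>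
          (SimpleGraph.fromEdgeSet (((insert s(a, b) F0 ∪ S : Finset (Sym2 (Fin 7)))) :
            Set (Sym2 (Fin 7)))).IsAcyclic
          ∧ Q (SimpleGraph.fromEdgeSet
            (((insert s(a, b) F0 ∪ S : Finset (Sym2 (Fin 7)))) : Set (Sym2 (Fin 7)))))) := by
        rw [Finset.filter_image]
        congr 1
        ext S
        simp only [Finset.mem_filter]
        rw [Finset.union_insert, Finset.insert_union]
      rw [hfilt, Finset.card_image_of_injOn]
      · split_ifs with hLab
        · rw [Finset.card_eq_zero, Finset.filter_eq_empty_iff]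
          rintro S - ⟨hS, -⟩
          have h1 : (SimpleGraph.fromEdgeSet ((insert s(a, b) F0 : Finset (Sym2 (Fin 7))) :
              Set (Sym2 (Fin 7)))).IsAcyclic := by
            refine hS.anti (SimpleGraph.fromEdgeSet_mono ?_)
            exact_mod_cast Finset.subset_union_left
          exact (hiff.1 h1) ((hrep.2 a b).1 hLab)
        · have hnr : ¬ (SimpleGraph.fromEdgeSet (F0 : Set (Sym2 (Fin 7)))).Reachable a b :=
            fun h => hLab ((hrep.2 a b).2 h)
          refine ih (mrg L a b) (insert s(a, b) F0) ?_ (hiff.2 hnr) hnd.2 ?_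
          · rw [hgr]; exact hrep.mrg a b hab
          · intro e he
            refine ⟨(hes' e he).1, ?_⟩
            rw [Finset.mem_insert, not_or]
            refine ⟨fun h => hnd.1 ?_, (hes' e he).2⟩
            rw [← h]
            exact List.mem_map.2 ⟨e, he, rfl⟩
      · intro S hS S' hS' h
        rw [Finset.coe_filter] at hS hS'
        have h1 : s(a, b) ∉ S := fun h' => hnm (Finset.mem_powerset.1 hS.1 h')
        have h2 : s(a, b) ∉ S' := fun h' => hnm (Finset.mem_powerset.1 hS'.1 h')
        have := congrArg (fun X => X.erase s(a, b)) h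
        simpa [Finset.erase_insert h1, Finset.erase_insert h2] using this
    · rw [Finset.disjoint_left]
      intro S hS hS'
      have h1 := Finset.mem_powerset.1 (Finset.mem_filter.1 hS).1
      obtain ⟨T, -, rfl⟩ := Finset.mem_image.1 (Finset.mem_filter.1 hS').1
      exact hnm (h1 (Finset.mem_insert_self _ _))

lemma Rep.card {H : SimpleGraph (Fin 7)} {L : List ℕ} (h : Rep H L) :
    Nat.card H.ConnectedComponent = L.dedup.length := by
  rw [← List.card_toFinset]
  let f : H.ConnectedComponent → ℕ :=
    SimpleGraph.ConnectedComponent.lift (fun v => L.getD v.1 0)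
      (fun u v p _ => (h.2 u v).2 ⟨p⟩)
  have hf : Function.Injective f := by
    intro c d
    refine SimpleGraph.ConnectedComponent.ind₂ ?_ c d
    intro u v huv
    exact SimpleGraph.ConnectedComponent.sound ((h.2 u v).1 huv)
  have hr : Set.range f = (L.toFinset : Set ℕ) := by
    ext x
    simp only [Set.mem_range, List.coe_toFinset, Set.mem_ofPred_eq]
    constructor
    · rintro ⟨c, rfl⟩
      refine SimpleGraph.ConnectedComponent.ind ?_ c
      intro v
      have hv : v.1 < L.length := by rw [h.1]; exact v.2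
      change L.getD v.1 0 ∈ L
      rw [List.getD_eq_getElem (l := L) 0 hv]
      exact List.getElem_mem hv
    · intro hx
      obtain ⟨i, hi, rfl⟩ := List.mem_iff_getElem.1 hx
      refine ⟨H.connectedComponentMk ⟨i, by rw [← h.1]; exact hi⟩, ?_⟩
      change L.getD i 0 = _
      rw [List.getD_eq_getElem (l := L) 0 hi]
  rw [← Nat.card_range_of_injective hf, hr, Nat.card_coe_set_eq, Set.ncard_coe_finset]

lemma connected_iff_card (H : SimpleGraph (Fin 7)) :
    H.Connected ↔ Nat.card H.ConnectedComponent = 1 := by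
  rw [Nat.card_eq_one_iff_unique, SimpleGraph.connected_iff]
  constructor
  · rintro ⟨h, -⟩
    exact ⟨h.subsingleton_connectedComponent, ⟨H.connectedComponentMk 0⟩⟩
  · rintro ⟨h, -⟩
    refine ⟨fun u v => ?_, ⟨0⟩⟩
    exact SimpleGraph.ConnectedComponent.exact (Subsingleton.elim _ _)

lemma hPT (H : SimpleGraph (Fin 7)) (L : List ℕ) (h : Rep H L) :
    H.Connected ↔ PT L = true := by
  rw [connected_iff_card, h.card, PT, decide_eq_true_eq]

lemma hPF (H : SimpleGraph (Fin 7)) (L : List ℕ) (h : Rep H L) :
    Nat.card H.ConnectedComponent = 2 ↔ PF L = true := by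
  rw [h.card, PF, decide_eq_true_eq]

/-- the list of edges of the counterexample -/
def es : List (Fin 7 × Fin 7) := (0, 1) :: rest

/-- The counterexample graph: `K_{2,5}` with an additional edge joining the two vertices of degree
five. -/
def G : SimpleGraph (Fin 7) :=
  SimpleGraph.fromEdgeSet ((es.map (fun e => s(e.1, e.2))).toFinset : Set (Sym2 (Fin 7)))

lemma edgeSet_G : G.edgeSet = ((es.map (fun e => s(e.1, e.2))).toFinset : Set (Sym2 (Fin 7))) := by
  rw [G, SimpleGraph.edgeSet_fromEdgeSet]
  ext e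
  simp only [Set.mem_sdiff, and_iff_left_iff_imp, Finset.mem_coe]
  revert e
  decide

lemma rep0 : Rep (SimpleGraph.fromEdgeSet ((∅ : Finset (Sym2 (Fin 7))) : Set (Sym2 (Fin 7)))) L0 := by
  refine ⟨rfl, fun u v => ?_⟩
  rw [Finset.coe_empty, SimpleGraph.fromEdgeSet_empty, SimpleGraph.reachable_bot]
  revert u v
  decide

lemma es_nodup : (es.map (fun e => s(e.1, e.2))).Nodup := by decide
lemma rest_nodup : (rest.map (fun e => s(e.1, e.2))).Nodup := by decide
lemma es_ne : ∀ e ∈ es, e.1 ≠ e.2 := by decide
lemma rest_ne : ∀ e ∈ rest, e.1 ≠ e.2 ∧ s(e.1, e.2) ∉ ({s(0, 1)} : Finset (Sym2 (Fin 7))) := by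
  decide

lemma edgeFinset_G [Fintype G.edgeSet] :
    G.edgeFinset = (es.map (fun e => s(e.1, e.2))).toFinset := by
  apply Finset.coe_injective
  rw [SimpleGraph.coe_edgeFinset, edgeSet_G]

open Classical in
lemma count_all (P : List ℕ → Bool) (Q : SimpleGraph (Fin 7) → Prop)
    (hPQ : ∀ H L, Rep H L → (Q H ↔ P L = true)) :
    (G.edgeFinset.powerset.filter (fun F : Finset (Sym2 (Fin 7)) =>
      (SimpleGraph.fromEdgeSet (F : Set (Sym2 (Fin 7)))).IsAcyclic ∧
        Q (SimpleGraph.fromEdgeSet (F : Set (Sym2 (Fin 7)))))).card = cnt P es L0 := by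
  have h := cnt_spec P Q hPQ es L0 ∅ rep0
    (by rw [Finset.coe_empty, SimpleGraph.fromEdgeSet_empty]; exact SimpleGraph.isAcyclic_bot)
    es_nodup (fun e he => ⟨es_ne e he, by simp⟩)
  rw [← h]
  refine congrArg Finset.card ?_
  ext F
  simp only [Finset.mem_filter, Finset.mem_powerset, Finset.empty_union, edgeFinset_G]

lemma rep1 : Rep (SimpleGraph.fromEdgeSet (({s(0, 1)} : Finset (Sym2 (Fin 7))) :
    Set (Sym2 (Fin 7)))) (mrg L0 0 1) := by
  have h := rep0.mrg 0 1 (by decide)
  rw [Finset.coe_empty, SimpleGraph.fromEdgeSet_empty, bot_sup_eq] at h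
  rw [Finset.coe_singleton]
  exact h

lemma acyc1 : (SimpleGraph.fromEdgeSet (({s(0, 1)} : Finset (Sym2 (Fin 7))) :
    Set (Sym2 (Fin 7)))).IsAcyclic := by
  have h : ((⊥ : SimpleGraph (Fin 7)) ⊔ SimpleGraph.edge 0 1).IsAcyclic := by
    rw [SimpleGraph.isAcyclic_sup_fromEdgeSet_iff]
    refine ⟨SimpleGraph.isAcyclic_bot, fun h => ?_⟩
    rw [SimpleGraph.reachable_bot] at h
    exact Or.inl h
  rw [bot_sup_eq] at h
  rw [Finset.coe_singleton]
  exact h

open Classical in
lemma count_e (P : List ℕ → Bool) (Q : SimpleGraph (Fin 7) → Prop)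
    (hPQ : ∀ H L, Rep H L → (Q H ↔ P L = true)) :
    ((G.edgeFinset.powerset.filter (fun F : Finset (Sym2 (Fin 7)) =>
      (SimpleGraph.fromEdgeSet (F : Set (Sym2 (Fin 7)))).IsAcyclic ∧
        Q (SimpleGraph.fromEdgeSet (F : Set (Sym2 (Fin 7)))))).filter
        (fun F => s(0, 1) ∈ F)).card = cnt P rest (mrg L0 0 1) := by
  have h := cnt_spec P Q hPQ rest (mrg L0 0 1) {s(0, 1)} rep1 acyc1 rest_nodup rest_ne
  rw [← h, edgeFinset_G]
  have hnm : s(0, 1) ∉ (rest.map (fun e => s(e.1, e.2))).toFinset := by decide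
  have hE : (es.map (fun e => s(e.1, e.2))).toFinset =
      insert s(0, 1) (rest.map (fun e => s(e.1, e.2))).toFinset := by
    simp [es]
  symm
  apply Finset.card_bij (fun S _ => {s(0, 1)} ∪ S)
  · intro S hS
    rw [Finset.mem_filter, Finset.mem_powerset] at hS
    rw [Finset.mem_filter, Finset.mem_filter, Finset.mem_powerset, hE]
    refine ⟨⟨?_, hS.2⟩, by simp⟩
    rw [← Finset.insert_eq]
    exact Finset.insert_subset_insert _ hS.1
  · intro S hS T hT hST
    rw [Finset.mem_filter, Finset.mem_powerset] at hS hT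
    have h1 : s(0, 1) ∉ S := fun h' => hnm (hS.1 h')
    have h2 : s(0, 1) ∉ T := fun h' => hnm (hT.1 h')
    have := congrArg (fun X => X.erase s(0, 1)) hST
    simpa [← Finset.insert_eq, Finset.erase_insert h1, Finset.erase_insert h2] using this
  · intro F hF
    rw [Finset.mem_filter, Finset.mem_filter, Finset.mem_powerset, hE] at hF
    have hFF : {s(0, 1)} ∪ F.erase s(0, 1) = F := by
      rw [← Finset.insert_eq, Finset.insert_erase hF.2]
    refine ⟨F.erase s(0, 1), ?_, hFF⟩
    rw [Finset.mem_filter, Finset.mem_powerset, hFF]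
    refine ⟨?_, hF.1.2⟩
    intro x hx
    rw [Finset.mem_erase] at hx
    have := hF.1.1 hx.2
    rw [Finset.mem_insert] at this
    exact this.resolve_left hx.1

lemma reach01 : G.Reachable 0 1 := by
  apply SimpleGraph.Adj.reachable
  rw [← SimpleGraph.mem_edgeSet, edgeSet_G]
  simp only [Finset.mem_coe]
  decide

lemma reach0 (v : Fin 7) (hv : v ≠ 0) : G.Adj 0 v := by
  rw [← SimpleGraph.mem_edgeSet, edgeSet_G]
  simp only [Finset.mem_coe]
  revert v
  decide

lemma connected_G : G.Connected := by
  rw [SimpleGraph.connected_iff_exists_forall_reachable]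
  refine ⟨0, fun v => ?_⟩
  by_cases hv : v = 0
  · subst hv; exact SimpleGraph.Reachable.refl _
  · exact (reach0 v hv).reachable

lemma trees_marginal : marginal (spanningTrees G) s(0, 1) = 2 / 7 := by
  classical
  have h1 := count_all PT (fun H => H.Connected) hPT
  have h2 := count_e PT (fun H => H.Connected) hPT
  rw [es, c2] at h1
  rw [c1] at h2
  have h1' : (spanningTrees G).card = 112 := by
    rw [← h1]
    refine congrArg Finset.card ?_
    ext F
    simp only [spanningTrees, Finset.mem_filter, Finset.mem_powerset, SimpleGraph.isTree_iff,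
      edgeFinset_G]
    tauto
  have h2' : ((spanningTrees G).filter (fun F => s(0, 1) ∈ F)).card = 32 := by
    rw [← h2]
    refine congrArg Finset.card ?_
    ext F
    simp only [spanningTrees, Finset.mem_filter, Finset.mem_powerset, SimpleGraph.isTree_iff,
      edgeFinset_G]
    tauto
  have h3 : marginal (spanningTrees G) s(0, 1) = ((32 : ℕ) : ℝ) / ((112 : ℕ) : ℝ) := by
    unfold marginal
    rw [h1', ← h2']
    congr!
  rw [h3]
  norm_num

lemma forests_marginal : marginal (twoForests G) s(0, 1) = 5 / 17 := by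
  classical
  have h1 := count_all PF (fun H => Nat.card H.ConnectedComponent = 2) hPF
  have h2 := count_e PF (fun H => Nat.card H.ConnectedComponent = 2) hPF
  rw [es, c4] at h1
  rw [c3] at h2
  have h1' : (twoForests G).card = 272 := by
    rw [← h1]
    refine congrArg Finset.card ?_
    ext F
    simp only [twoForests, Finset.mem_filter, Finset.mem_powerset, edgeFinset_G]
  have h2' : ((twoForests G).filter (fun F => s(0, 1) ∈ F)).card = 80 := by
    rw [← h2]
    refine congrArg Finset.card ?_
    ext F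
    simp only [twoForests, Finset.mem_filter, Finset.mem_powerset, edgeFinset_G]
  have h3 : marginal (twoForests G) s(0, 1) = ((80 : ℕ) : ℝ) / ((272 : ℕ) : ℝ) := by
    unfold marginal
    rw [h1', ← h2']
    congr!
  rw [h3]
  norm_num

/-- There are a connected graph with `7` vertices and `11` edges and an edge `e` of it with
`P_UST(e) = 2/7 < 5/17 = P_2UF(e)`.  In particular the two inequalities
`P_2UF(e) ≤ P_UST(e) ≤ P_2UC(e)` do not hold for all edges of all finite connected graphs with at
least two vertices and at least `|V| + 2` edges. -/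
theorem result :
    (∃ (G : SimpleGraph (Fin 7)) (e : Sym2 (Fin 7)), G.Connected ∧ G.edgeSet.ncard = 11 ∧
      e ∈ G.edgeSet ∧ marginal (spanningTrees G) e = 2 / 7 ∧ marginal (twoForests G) e = 5 / 17) ∧
    ¬ ∀ (n : ℕ) (G : SimpleGraph (Fin n)), G.Connected → 2 ≤ n → n + 2 ≤ G.edgeSet.ncard →
      ∀ e ∈ G.edgeSet, marginal (twoForests G) e ≤ marginal (spanningTrees G) e ∧
        marginal (spanningTrees G) e ≤ marginal (excessTwo G) e := by
  have hmem : s(0, 1) ∈ G.edgeSet := (reach0 1 (by decide))
  have hcard : G.edgeSet.ncard = 11 := by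
    rw [edgeSet_G, Set.ncard_coe_finset]
    decide
  refine ⟨⟨G, s(0, 1), connected_G, hcard, hmem, trees_marginal, forests_marginal⟩, ?_⟩
  intro h
  have := (h 7 G connected_G (by norm_num) (by rw [hcard]; norm_num) s(0, 1) hmem).1
  rw [trees_marginal, forests_marginal] at this
  norm_num at this

end Pool.Agent.Results.MP_83c1a8_pr.FirstInequalityFails
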